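import Mathlib
import Pool.Agent.H66.Gam3

set_option autoImplicit false

open scoped Pointwise

universe u

/-- Every infinite group is the product of a countable set and a small set. -/
theorem Pool.Agent.Results.MP_ffa63f_al.CountableSmall.result
    (G : Type u) [Group G] [Infinite G] :
    ∃ C S : Set G, C.Countable ∧
      (∀ L : Set G, (∃ F : Set G, F.Finite ∧ F * L = Set.univ) →
        ∃ F : Set G, F.Finite ∧ F * (L \ S) = Set.univ) ∧
      C * S = Set.univ := by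
  obtain ⟨C, S, hC, h1, h2⟩ := Pool.Agent.H66.Gam.countable_mul_small G
  refine ⟨(fun x => x⁻¹) '' C, S, hC.image _, fun L ⟨F, hF, hL⟩ => ?_,
    Set.eq_univ_of_forall fun g => ?_⟩
  · obtain ⟨K, hK, h⟩ := h2 ((fun x => x⁻¹) '' F) (hF.image _)
    refine ⟨Set.image2 (fun k x => k⁻¹ * x) K F, hK.image2 _ hF,
      Set.eq_univ_of_forall fun g => ?_⟩
    obtain ⟨k, hk, h⟩ := h g
    obtain ⟨x, hx, y, hy, e⟩ : k * g ∈ F * L := by rw [hL]; trivial
    simp only at e
    refine ⟨k⁻¹ * x, ⟨k, hk, x, hx, rfl⟩, y, ⟨hy, ?_⟩, by simp only [mul_assoc, e]; simp⟩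
    have := h x⁻¹ ⟨x, hx, rfl⟩
    rwa [mul_assoc, ← e, inv_mul_cancel_left] at this
  · obtain ⟨c, hc, h⟩ := h1 g
    exact ⟨c⁻¹, ⟨c, hc, rfl⟩, c * g, h, by simp⟩
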